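import Pool.Agent.helper7.UL.Spec

/-!
# Project ul (MP_62ffdf_lc), row DND
-/

set_option autoImplicit false

namespace Pool.Agent.UL

open Finset

lemma DND_low (c : ℕ) (hc : c ≠ 0) : ∃ q : ℕ, c.testBit q = true ∧ (∀ i < q, c.testBit i = false) ∧
    ∀ i, (c &&& (c - 1)).testBit i = (c.testBit i && decide (i ≠ q)) := by
  obtain ⟨q, m, hm, hcm⟩ := Nat.exists_eq_two_pow_mul_odd hc
  obtain ⟨k, hk⟩ := hm
  subst hk
  have hpos : 0 < 2 ^ q := by positivity
  have hc1 : c - 1 = 2 ^ q * (2 * k) + (2 ^ q - 1) := by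
    have h1 : 2 ^ q * (2 * k + 1) = 2 ^ q * (2 * k) + 2 ^ q := by ring
    omega
  have hbit : ∀ i, c.testBit i = (decide (i ≥ q) && (2 * k + 1).testBit (i - q)) := by
    intro i; rw [hcm, Nat.testBit_two_pow_mul]
  have hbit1 : ∀ i, (c - 1).testBit i = if i < q then (2 ^ q - 1).testBit i else (2 * k).testBit (i - q) := by
    intro i; rw [hc1, Nat.testBit_two_pow_mul_add _ (by omega)]
  refine ⟨q, ?_, ?_, ?_⟩
  · rw [hbit]; simp
  · intro i hi
    rw [hbit]
    have : ¬ (i ≥ q) := by omega
    simp [this]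
  · intro i
    rw [Nat.testBit_and, hbit, hbit1]
    by_cases h1 : i < q
    · have h2 : ¬ (i ≥ q) := by omega
      simp [h2]
    · have h2 : i ≥ q := by omega
      rw [if_neg h1]
      by_cases h3 : i = q
      · subst h3
        simp
      · obtain ⟨n, hn⟩ : ∃ n, i - q = n + 1 := ⟨i - q - 1, by omega⟩
        rw [hn, Nat.testBit_succ, Nat.testBit_succ]
        have e1 : (2 * k + 1) / 2 = k := by omega
        have e2 : (2 * k) / 2 = k := by omega
        rw [e1, e2]
        simp [h2, h3]

lemma DND_full (R q b : ℕ) (hq : q < R + 4) (hb : b < R + 4) :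
    (full R - (2 ^ q - 1)).testBit b = decide (q ≤ b) ∧ full R - (2 ^ q - 1) < 2 ^ (R + 4) := by
  have h0 : 0 < 2 ^ q := by positivity
  have h1 : full R - (2 ^ q - 1) = 2 ^ q * (2 ^ (R + 4 - q) - 1) := by
    unfold full
    have e : 2 ^ (R + 4) = 2 ^ q * 2 ^ (R + 4 - q) := by rw [← pow_add]; congr 1; omega
    rw [Nat.mul_sub, ← e, mul_one]
    have : 2 ^ q ≤ 2 ^ (R + 4) := Nat.pow_le_pow_right (by norm_num) (by omega)
    omega
  constructor
  · rw [h1, Nat.testBit_two_pow_mul, Nat.testBit_two_pow_sub_one]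
    by_cases h2 : q ≤ b
    · have h3 : b - q < R + 4 - q := by omega
      have h4 : b ≥ q := h2
      simp [h3, h4]
    · have h4 : ¬ (b ≥ q) := h2
      simp [h4]
  · unfold full
    have : 0 < 2 ^ (R + 4) := by positivity
    omega

lemma DND_one (R c b : ℕ) (hc : c < 2 ^ (R + 4)) (hb : b < R + 4) :
    ((dn1 R c).testBit b = true ↔ 1 ≤ ((range (b + 1)).filter fun b' => c.testBit b' = true).card) ∧
    dn1 R c < 2 ^ (R + 4) := by
  by_cases h0 : c = 0
  · subst h0
    unfold dn1
    simp
  · obtain ⟨q, hq1, hq2, hq3⟩ := DND_low c h0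
    have hqR : q < R + 4 := by
      by_contra hcon
      have : c.testBit q = false :=
        Nat.testBit_lt_two_pow (lt_of_lt_of_le hc (Nat.pow_le_pow_right (by norm_num) (by omega)))
      rw [this] at hq1
      exact absurd hq1 (by decide)
    have hx : c ^^^ (c &&& (c - 1)) = 2 ^ q := by
      apply Nat.eq_of_testBit_eq
      intro i
      rw [Nat.testBit_xor, hq3, Nat.testBit_two_pow]
      by_cases h1 : i = q
      · subst h1; simp [hq1]
      · have h2 : ¬ q = i := fun h => h1 h.symm
        simp [h1, h2]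
    unfold dn1
    rw [if_neg h0, hx]
    obtain ⟨h1, h2⟩ := DND_full R q b hqR hb
    refine ⟨?_, h2⟩
    rw [h1, decide_eq_true_iff]
    constructor
    · intro h3
      exact Finset.card_pos.2 ⟨q, Finset.mem_filter.2 ⟨Finset.mem_range.2 (by omega), hq1⟩⟩
    · intro h3
      obtain ⟨i, hi⟩ := Finset.card_pos.1 h3
      obtain ⟨hi1, hi2⟩ := Finset.mem_filter.1 hi
      have hi3 := Finset.mem_range.1 hi1
      by_contra hcon
      have := hq2 i (by omega)
      rw [this] at hi2
      exact absurd hi2 (by decide)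

theorem DND : DND_stmt := by
  intro R c b hc hb
  obtain ⟨h1, h2⟩ := DND_one R c b hc hb
  have hc' : c &&& (c - 1) < 2 ^ (R + 4) := lt_of_le_of_lt Nat.and_le_left hc
  obtain ⟨h3, h4⟩ := DND_one R (c &&& (c - 1)) b hc' hb
  refine ⟨h1, ?_, h2, h4⟩
  show (dn1 R (c &&& (c - 1))).testBit b = true ↔ _
  rw [h3]
  by_cases h0 : c = 0
  · subst h0
    simp
  · obtain ⟨q, hq1, hq2, hq3⟩ := DND_low c h0
    have he : ((range (b + 1)).filter fun b' => (c &&& (c - 1)).testBit b' = true) =
        ((range (b + 1)).filter fun b' => c.testBit b' = true).erase q := by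
      ext i
      simp only [Finset.mem_filter, Finset.mem_erase, hq3, Bool.and_eq_true, decide_eq_true_eq]
      tauto
    rw [he]
    by_cases hqb : q ≤ b
    · have hmem : q ∈ (range (b + 1)).filter fun b' => c.testBit b' = true :=
        Finset.mem_filter.2 ⟨Finset.mem_range.2 (by omega), hq1⟩
      rw [Finset.card_erase_of_mem hmem]
      have := Finset.card_pos.2 ⟨q, hmem⟩
      omega
    · have hemp : ((range (b + 1)).filter fun b' => c.testBit b' = true) = ∅ := by
        rw [Finset.filter_eq_empty_iff]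
        intro i hi
        have := hq2 i (by have := Finset.mem_range.1 hi; omega)
        rw [this]; decide
      rw [hemp]
      simp

end Pool.Agent.UL
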