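import Pool.Agent.helper7.UL.Spec

/-!
# Project ul (MP_62ffdf_lc), row GAP
-/

set_option autoImplicit false

namespace Pool.Agent.UL

open Finset

lemma GAP_count (V : Set ℕ) [DecidablePred (· ∈ V)] (K P : ℕ)
    (h : ∀ n, K ≤ n → (n ∈ V ↔ n + P ∈ V)) (Q : ℕ)
    (hQ : Nat.count (· ∈ V) (K + P) = Nat.count (· ∈ V) K + Q) (i : ℕ) :
    Nat.count (· ∈ V) (K + i + P) = Nat.count (· ∈ V) (K + i) + Q := by
  induction i with
  | zero => exact hQ
  | succ i ih =>
    have e1 : K + (i + 1) + P = (K + i + P) + 1 := by ring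
    have e2 : K + (i + 1) = (K + i) + 1 := by ring
    rw [e1, e2, Nat.count_succ, Nat.count_succ, ih]
    have h1 := h (K + i) (Nat.le_add_right _ _)
    by_cases h2 : K + i ∈ V
    · rw [if_pos h2, if_pos (h1.1 h2)]; ring
    · rw [if_neg h2, if_neg (fun h3 => h2 (h1.2 h3))]; ring

theorem GAP : GAP_stmt := by
  intro V K P hV hP h
  classical
  have hinf : (Set.ofPred (· ∈ V)).Infinite := hV
  have hmono : StrictMono (Nat.nth (· ∈ V)) := Nat.nth_strictMono hinf
  have hle : ∀ k, k ≤ Nat.nth (· ∈ V) k := fun k => hmono.le_apply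
  obtain ⟨Q, hQ⟩ : ∃ Q, Nat.count (· ∈ V) (K + P) = Nat.count (· ∈ V) K + Q :=
    ⟨Nat.count (· ∈ V) (K + P) - Nat.count (· ∈ V) K, by
      have := Nat.count_monotone (· ∈ V) (Nat.le_add_right K P)
      omega⟩
  have key : ∀ k, K ≤ k → Nat.nth (· ∈ V) (k + Q) = Nat.nth (· ∈ V) k + P := by
    intro k hk
    have hv : K ≤ Nat.nth (· ∈ V) k := hk.trans (hle k)
    obtain ⟨i, hi⟩ := Nat.exists_eq_add_of_le hv
    have h1 := GAP_count V K P h Q hQ i
    rw [← hi] at h1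
    rw [Nat.count_nth_of_infinite hinf] at h1
    have hmem : Nat.nth (· ∈ V) k ∈ V := Nat.nth_mem_of_infinite hinf k
    have hmem2 : Nat.nth (· ∈ V) k + P ∈ V := (h _ hv).1 hmem
    have h2 : Nat.nth (· ∈ V) (Nat.count (· ∈ V) (Nat.nth (· ∈ V) k + P)) = Nat.nth (· ∈ V) k + P :=
      Nat.nth_count hmem2
    rw [h1] at h2
    exact h2
  refine ⟨K, Q, ?_, key⟩
  rcases Nat.eq_zero_or_pos Q with h0 | h0
  · exfalso
    have := key K le_rfl
    rw [h0, Nat.add_zero] at this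
    omega
  · exact h0

end Pool.Agent.UL
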