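import Pool.Agent.helper7.UL.Spec

/-!
# Project ul (MP_62ffdf_lc), row WID
-/

set_option autoImplicit false

namespace Pool.Agent.UL

open Finset

lemma WID_wide (R c : ℕ) (hc : c < 2 ^ (R + 4)) (γ : ℕ) (hγ : γ < 3 * R + 12) :
    (wide R c).testBit γ = wv R c ((γ : ℤ) - 2 * R - 4) := by
  have hfull : ∀ i, (full R).testBit i = decide (i < R + 4) := by
    intro i; unfold full; exact Nat.testBit_two_pow_sub_one _ _
  have h1 : (if c.testBit 0 = true then full R else 0).testBit γ = (c.testBit 0 && decide (γ < R + 4)) := by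
    by_cases h : c.testBit 0 = true
    · rw [if_pos h, hfull, h, Bool.true_and]
    · rw [if_neg h, Nat.zero_testBit]
      simp only [Bool.not_eq_true] at h
      rw [h, Bool.false_and]
  have h2 : (if c.testBit (R + 3) = true then full R <<< (2 * R + 8) else 0).testBit γ =
      (c.testBit (R + 3) && (decide (2 * R + 8 ≤ γ) && decide (γ - (2 * R + 8) < R + 4))) := by
    by_cases h : c.testBit (R + 3) = true
    · rw [if_pos h, Nat.testBit_shiftLeft, hfull, h, Bool.true_and]
    · rw [if_neg h, Nat.zero_testBit]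
      simp only [Bool.not_eq_true] at h
      rw [h, Bool.false_and]
  unfold wide
  rw [Nat.testBit_or, Nat.testBit_or, Nat.testBit_shiftLeft, h1, h2]
  unfold wv
  by_cases c1 : γ < R + 4
  · have a1 : ((γ : ℤ) - 2 * R - 4) < -(R : ℤ) := by omega
    rw [if_pos a1]
    have b1 : ¬ (R + 4 ≤ γ) := by omega
    have b2 : ¬ (2 * R + 8 ≤ γ) := by omega
    simp [b1, b2, c1]
  · have a1 : ¬ ((γ : ℤ) - 2 * R - 4) < -(R : ℤ) := by omega
    rw [if_neg a1]
    have b1 : R + 4 ≤ γ := by omega
    by_cases c2 : γ < 2 * R + 8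
    · have a2 : ¬ (3 : ℤ) < ((γ : ℤ) - 2 * R - 4) := by omega
      rw [if_neg a2]
      have b2 : ¬ (2 * R + 8 ≤ γ) := by omega
      have b3 : ((γ : ℤ) - 2 * R - 4 + R).toNat = γ - (R + 4) := by omega
      rw [b3]
      simp [b1, b2, c1]
    · have a2 : (3 : ℤ) < ((γ : ℤ) - 2 * R - 4) := by omega
      rw [if_pos a2]
      have b2 : 2 * R + 8 ≤ γ := by omega
      have b3 : γ - (2 * R + 8) < R + 4 := by omega
      have b4 : c.testBit (γ - (R + 4)) = false :=
        Nat.testBit_lt_two_pow (lt_of_lt_of_le hc (Nat.pow_le_pow_right (by norm_num) (by omega)))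
      simp [b1, b2, b3, b4, c1]

theorem WID (h1 : BDN_stmt) : WID_stmt := by
  intro R c hc γ hγ
  refine ⟨WID_wide R c hc γ hγ, ?_⟩
  obtain ⟨_, _, h3, h4⟩ := h1 R c hc
  show (wide R c ^^^ (ess R c <<< (R + 4))).testBit γ = true ↔ _
  rw [Nat.testBit_xor, Nat.testBit_shiftLeft, WID_wide R c hc γ hγ]
  by_cases c1 : R + 4 ≤ γ ∧ (ess R c).testBit (γ - (R + 4)) = true
  · obtain ⟨c2, c3⟩ := c1
    have c4 : γ - (R + 4) < R + 4 := by
      by_contra hcon
      have : (ess R c).testBit (γ - (R + 4)) = false :=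
        Nat.testBit_lt_two_pow (lt_of_lt_of_le h4 (Nat.pow_le_pow_right (by norm_num) (by omega)))
      rw [this] at c3
      exact absurd c3 (by decide)
    have c5 : wv R c ((γ : ℤ) - 2 * R - 4) = true := by
      unfold wv
      have a1 : ¬ ((γ : ℤ) - 2 * R - 4) < -(R : ℤ) := by omega
      have a2 : ¬ (3 : ℤ) < ((γ : ℤ) - 2 * R - 4) := by omega
      have b3 : ((γ : ℤ) - 2 * R - 4 + R).toNat = γ - (R + 4) := by omega
      rw [if_neg a1, if_neg a2, b3]
      exact h3 _ c3
    rw [c5, c3]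
    have c2' : γ ≥ R + 4 := c2
    simp [c2']
  · have c6 : (decide (γ ≥ R + 4) && (ess R c).testBit (γ - (R + 4))) = false := by
      by_contra hcon
      simp only [Bool.not_eq_false, Bool.and_eq_true, decide_eq_true_eq] at hcon
      exact c1 hcon
    rw [c6, Bool.xor_false]
    constructor
    · intro h; exact ⟨h, c1⟩
    · intro h; exact h.1

end Pool.Agent.UL
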